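import Mathlib

set_option autoImplicit false

namespace Pool.Agent.MP_44cb5f_an.Par

/-! The comparison of the eigenvalue bound with the Cheeger constant. -/

theorem sqrt_pi_bounds : 17724 / 10000 < √Real.pi ∧ √Real.pi < 17725 / 10000 := by
  have h1 := Real.pi_gt_d6
  have h2 := Real.pi_lt_d6
  constructor
  · exact Real.lt_sqrt_of_sq_lt (by linarith)
  · exact (Real.sqrt_lt' (by norm_num)).2 (by linarith)

/-- Reduction to the case of equal sides; normalisation `a + b = 2`, `s = t ^ 2`. -/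
theorem step1 {a b s p q D x σ : ℝ} (hab : a + b = 2) (s0 : 0 ≤ s) (s1 : s < 1) (hp0 : 0 < p)
    (hq0 : 0 < q) (hp : p ^ 2 = a + b * s) (hq : q ^ 2 = b + a * s)
    (hD : D ^ 2 = a * b * (1 - s) ^ 2) (hx : 377 / 100 ≤ x) (σ0 : 0 ≤ σ)
    (hσ : σ ^ 2 = 4 * (1 + s)) :
    (x - σ) ^ 2 - Real.pi * (1 - s) + 33 / 40 * (p - q) ^ 2 ≤
      (x - 2 * p) * (x - 2 * q) - Real.pi * D := by
  have hb : b = 2 - a := by linarith
  have h1 : p ^ 2 + q ^ 2 = 2 * (1 + s) := by rw [hp, hq, hb]; ring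
  have h2 : D ^ 2 = (p * q) ^ 2 - 4 * s := by rw [mul_pow, hp, hq, hD, hb]; ring
  have pq := mul_pos hp0 hq0
  have h3 : 2 * s ≤ p * q := by
    refine le_of_sq_le_sq ?_ pq.le
    nlinarith [sq_nonneg D]
  have h4 : D ≤ p * q - 2 * s := by
    refine le_of_sq_le_sq ?_ (by linarith)
    nlinarith [mul_nonneg s0 (sq_nonneg (p - q))]
  have h5 : σ ≤ 3 := by nlinarith
  have h6 : p + q ≤ σ := by
    refine le_of_sq_le_sq ?_ σ0
    nlinarith [sq_nonneg (p - q)]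
  have h7 : (p - q) ^ 2 ≤ 6 * (σ - (p + q)) := by nlinarith
  have h8 := Real.pi_gt_d2
  have h9 : Real.pi * D ≤ Real.pi * (p * q - 2 * s) := mul_le_mul_of_nonneg_left h4 Real.pi_pos.le
  have h10 : p * q = 1 + s - (p - q) ^ 2 / 2 := by nlinarith
  have h11 : 377 / 100 * (σ - (p + q)) ≤ x * (σ - (p + q)) :=
    mul_le_mul_of_nonneg_right hx (by linarith)
  have h12 : 314 / 100 * (p - q) ^ 2 ≤ Real.pi * (p - q) ^ 2 :=
    mul_le_mul_of_nonneg_right (by linarith) (sq_nonneg _)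
  rw [h10] at h9
  nlinarith

/-- Thin rhombi: the plain tangent field is enough. -/
theorem step2 {s x σ : ℝ} (s0 : 1 / 4 ≤ s) (s1 : s < 1) (hx : 2 + √Real.pi ≤ x)
    (hσ : σ ^ 2 = 4 * (1 + s)) : Real.pi * (1 - s) < (x - σ) ^ 2 := by
  have h1 := sqrt_pi_bounds.1
  have h2 := Real.pi_lt_d4
  have h3 : σ ≤ 20125 / 10000 + 8945 / 10000 * s := by
    refine le_of_sq_le_sq ?_ (by linarith)
    nlinarith [sq_nonneg (s - 1 / 4)]
  have h4 : 17599 / 10000 - 8945 / 10000 * s ≤ x - σ := by linarith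
  have h5 := pow_le_pow_left₀ (by linarith) h4 2
  have h6 : Real.pi * (1 - s) ≤ 31416 / 10000 * (1 - s) :=
    mul_le_mul_of_nonneg_right (by linarith) (by linarith)
  nlinarith

/-- Near the square. Here `b = 1 - δ` is the smaller weight. -/
theorem step3 {s x σ δ d : ℝ} (s0 : 0 ≤ s) (s1 : s ≤ 1 / 4) (δ0 : 0 ≤ δ) (δ1 : δ ≤ 1)
    (x0 : 0 ≤ x) (hx : x ^ 2 = (2 + √Real.pi) ^ 2 * (1 + (1 - δ) * s / 16))
    (hσ : σ ^ 2 = 4 * (1 + s)) (hd : 37 / 100 * δ ^ 2 ≤ d) (hne : ¬(δ = 0 ∧ s = 0)) :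
    Real.pi * (1 - s) < (x - σ) ^ 2 + d := by
  obtain ⟨h1, h2⟩ := sqrt_pi_bounds
  have hr : √Real.pi ^ 2 = Real.pi := Real.sq_sqrt Real.pi_pos.le
  generalize √Real.pi = r at *
  rw [← hr]
  obtain ⟨y, hy⟩ : ∃ y, y = (1 - δ) * s / 16 := ⟨_, rfl⟩
  have y0 : 0 ≤ y := by rw [hy]; have : 0 ≤ 1 - δ := by linarith
                        positivity
  have y1 : y ≤ 1 / 64 := by rw [hy]; nlinarith
  rw [← hy] at hx
  have h3 : (2 + r) * (1 + 497 / 1000 * y) ≤ x := by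
    refine le_of_sq_le_sq ?_ x0
    rw [hx, mul_pow]
    refine mul_le_mul_of_nonneg_left ?_ (sq_nonneg _)
    nlinarith
  have h4 : σ ≤ 2 + s - s ^ 2 / 5 := by
    refine le_of_sq_le_sq ?_ (by nlinarith)
    nlinarith [mul_nonneg (sq_nonneg s) (show 0 ≤ 1 / 2 - s by linarith), sq_nonneg (s ^ 2)]
  obtain ⟨m, hm⟩ : ∃ m, m = (2 + r) * (497 / 1000 * y) - s + s ^ 2 / 5 := ⟨_, rfl⟩
  have h5 : r + m ≤ x - σ := by rw [hm]; linarith
  have h6 : 0 ≤ (2 + r) * (497 / 1000 * y) := by positivity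
  have h7 : 0 ≤ r + m := by rw [hm]; nlinarith
  have h8 := pow_le_pow_left₀ h7 h5 2
  have h9 : 13372 / 1000 * y ≤ 2 * r * (2 + r) * y :=
    mul_le_mul_of_nonneg_right (by nlinarith) y0
  have h10 : -(4036 / 10000) * s ≤ (r ^ 2 - 2 * r) * s :=
    mul_le_mul_of_nonneg_right (by nlinarith) s0
  have h11 : 7 / 10 * s ^ 2 ≤ 2 * r / 5 * s ^ 2 :=
    mul_le_mul_of_nonneg_right (by linarith) (sq_nonneg s)
  have h12 : 0 < 1 / 100 * s + 1 / 10 * δ ^ 2 := by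
    rcases s0.lt_or_eq with h | h
    · positivity
    · have : δ ≠ 0 := fun h0 => hne ⟨h0, h.symm⟩
      have : 0 < δ ^ 2 := by positivity
      linarith
  have h13 : 2 * r * m = 497 / 1000 * (2 * r * (2 + r) * y) - 2 * r * s + 2 * r / 5 * s ^ 2 := by
    rw [hm]; ring
  have h14 : 16 * y = s - δ * s := by rw [hy]; ring
  nlinarith [sq_nonneg m, sq_nonneg (δ - s)]

theorem norm_case {a b t p q D x γ : ℝ} (hab : a + b = 2) (b0 : 0 < b) (ba : b ≤ a)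
    (t1 : t ^ 2 < 1) (hp0 : 0 < p) (hq0 : 0 < q) (hp : p ^ 2 = a + b * t ^ 2)
    (hq : q ^ 2 = b + a * t ^ 2) (hD : D ^ 2 = a * b * (1 - t ^ 2) ^ 2) (x0 : 0 ≤ x)
    (hγ : (t ^ 2 ≤ 1 / 4 ∧ γ = t ^ 2 / 8) ∨ (1 / 4 ≤ t ^ 2 ∧ γ = 0))
    (hx : 2 * x ^ 2 = (2 + √Real.pi) ^ 2 * (a + b + b * γ)) (hne : ¬(a = b ∧ t = 0)) :
    2 * p < x ∧ 2 * q < x ∧ Real.pi * D < (x - 2 * p) * (x - 2 * q) := by
  have s0 := sq_nonneg t
  have hne' : ¬(1 - b = 0 ∧ t ^ 2 = 0) := fun h =>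
    hne ⟨by linarith [h.1], pow_eq_zero_iff two_ne_zero |>.1 h.2⟩
  generalize t ^ 2 = s at *
  have r1 := sqrt_pi_bounds.1
  have γ0 : 0 ≤ γ := by rcases hγ with h | h <;> linarith [h.2]
  have hx1 : 2 + √Real.pi ≤ x := by
    refine le_of_sq_le_sq ?_ x0
    nlinarith [mul_nonneg (sq_nonneg (2 + √Real.pi)) (mul_nonneg b0.le γ0)]
  have p1 : p ≤ 3 / 2 := by
    refine le_of_sq_le_sq ?_ (by norm_num)
    nlinarith
  have q1 : q ≤ 3 / 2 := by
    refine le_of_sq_le_sq ?_ (by norm_num)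
    nlinarith
  refine ⟨by linarith, by linarith, ?_⟩
  have σ0 : 0 ≤ √(4 * (1 + s)) := Real.sqrt_nonneg _
  have hσ : √(4 * (1 + s)) ^ 2 = 4 * (1 + s) := Real.sq_sqrt (by linarith)
  generalize √(4 * (1 + s)) = σ at σ0 hσ
  have h1 := step1 hab s0 t1 hp0 hq0 hp hq hD (x := x) (by linarith) σ0 hσ
  rcases hγ with ⟨h, hg⟩ | ⟨h, hg⟩
  · have h2 : 37 / 100 * (1 - b) ^ 2 ≤ 33 / 40 * (p - q) ^ 2 := by
      have ha : a = 2 - b := by linarith
      have e1 : (p - q) * (p + q) = 2 * (1 - b) * (1 - s) := by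
        have : (p - q) * (p + q) = p ^ 2 - q ^ 2 := by ring
        rw [this, hp, hq, ha]; ring
      have e2 : (p + q) ^ 2 ≤ 5 := by nlinarith [sq_nonneg (p - q)]
      have e3 : (p - q) ^ 2 * (p + q) ^ 2 = 4 * (1 - b) ^ 2 * (1 - s) ^ 2 := by
        rw [← mul_pow, e1]; ring
      have e4 : 9 / 16 ≤ (1 - s) ^ 2 := by nlinarith
      nlinarith [mul_le_mul_of_nonneg_left e2 (sq_nonneg (p - q)),
        mul_le_mul_of_nonneg_left e4 (sq_nonneg (1 - b))]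
    have h3 := step3 (δ := 1 - b) (x := x) s0 h (by linarith) (by linarith) x0
      (by rw [hab, hg] at hx; linear_combination hx / 2) hσ h2 hne'
    linarith
  · have h3 := step2 h t1 hx1 hσ
    nlinarith [sq_nonneg (p - q)]

/-- The same without normalisation. -/
theorem gen_case {a b t p q D x γ : ℝ} (b0 : 0 < b) (ba : b ≤ a)
    (t1 : t ^ 2 < 1) (hp0 : 0 < p) (hq0 : 0 < q) (hp : p ^ 2 = a + b * t ^ 2)
    (hq : q ^ 2 = b + a * t ^ 2) (hD : D ^ 2 = a * b * (1 - t ^ 2) ^ 2) (x0 : 0 ≤ x)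
    (hγ : (t ^ 2 ≤ 1 / 4 ∧ γ = t ^ 2 / 8) ∨ (1 / 4 ≤ t ^ 2 ∧ γ = 0))
    (hx : 2 * x ^ 2 = (2 + √Real.pi) ^ 2 * (a + b + b * γ)) (hne : ¬(a = b ∧ t = 0)) :
    2 * p < x ∧ 2 * q < x ∧ Real.pi * D < (x - 2 * p) * (x - 2 * q) := by
  have S0 : 0 < a + b := by linarith
  have k0 : 0 < √(2 / (a + b)) := Real.sqrt_pos.2 (by positivity)
  have hk : √(2 / (a + b)) ^ 2 * (a + b) = 2 := by
    rw [Real.sq_sqrt (by positivity)]; field_simp
  generalize √(2 / (a + b)) = k at k0 hk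
  have k2 : 0 < k ^ 2 := by positivity
  obtain ⟨h1, h2, h3⟩ := norm_case (a := k ^ 2 * a) (b := k ^ 2 * b) (t := t) (p := k * p)
    (q := k * q) (D := k ^ 2 * D) (x := k * x) (γ := γ) (by linarith) (by positivity)
    (mul_le_mul_of_nonneg_left ba k2.le) t1 (by positivity) (by positivity)
    (by rw [mul_pow, hp]; ring) (by rw [mul_pow, hq]; ring)
    (by rw [mul_pow, hD]; ring) (by positivity) hγ (by linear_combination k ^ 2 * hx)
    (fun h => hne ⟨mul_left_cancel₀ k2.ne' h.1, h.2⟩)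
  refine ⟨lt_of_mul_lt_mul_left (by linarith) k0.le, lt_of_mul_lt_mul_left (by linarith) k0.le,
    lt_of_mul_lt_mul_left (by linarith) k2.le⟩

end Pool.Agent.MP_44cb5f_an.Par
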