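import Pool.Agent.MP_44cb5f_an.Defs

set_option autoImplicit false

namespace Pool.Agent.MP_44cb5f_an

/-- The open parallelogram with vertex `a` and sides `v`, `w`. -/
def par (a v w : ℂ) : Set ℂ :=
  {z | ∃ s ∈ Set.Ioo (0 : ℝ) 1, ∃ t ∈ Set.Ioo (0 : ℝ) 1, z = a + s • v + t • w}

end Pool.Agent.MP_44cb5f_an
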