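import Mathlib
import Pool.Agent.MP_44cb5f_an.Final
import Pool.Agent.MP_44cb5f_an.Par.Defs

set_option autoImplicit false
open MeasureTheory Set Metric

namespace Pool.Agent.MP_44cb5f_an.Par

/-! Geometry of the parallelogram. -/

def cr (v w : ℂ) : ℝ := v.re * w.im - v.im * w.re

/-- The image of an open rectangle of parameters. -/
def box (a v w : ℂ) (α β : ℝ) : Set ℂ :=
  {z | ∃ s ∈ Ioo α (1 - α), ∃ t ∈ Ioo β (1 - β), z = a + s • v + t • w}

theorem box_zero (a v w : ℂ) : box a v w 0 0 = par a v w := by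
  simp only [box, par, sub_zero]

theorem mem_box {a v w : ℂ} (h : cr v w ≠ 0) {α β : ℝ} {z : ℂ} :
    z ∈ box a v w α β ↔
      cr (z - a) w / cr v w ∈ Ioo α (1 - α) ∧ cr v (z - a) / cr v w ∈ Ioo β (1 - β) := by
  constructor
  · rintro ⟨s, hs, t, ht, rfl⟩
    have e1 : cr (a + s • v + t • w - a) w / cr v w = s := by
      rw [div_eq_iff h]; simp [cr]; ring
    have e2 : cr v (a + s • v + t • w - a) / cr v w = t := by
      rw [div_eq_iff h]; simp [cr]; ring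
    rw [e1, e2]; exact ⟨hs, ht⟩
  · rintro ⟨hs, ht⟩
    refine ⟨_, hs, _, ht, ?_⟩
    apply Complex.ext
    · simp only [Complex.add_re, Complex.smul_re, smul_eq_mul]
      field_simp
      simp only [cr, Complex.sub_re, Complex.sub_im]
      ring
    · simp only [Complex.add_im, Complex.smul_im, smul_eq_mul]
      field_simp
      simp only [cr, Complex.sub_re, Complex.sub_im]
      ring

theorem mem_par {a v w : ℂ} (h : cr v w ≠ 0) {z : ℂ} :
    z ∈ par a v w ↔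
      cr (z - a) w / cr v w ∈ Ioo (0 : ℝ) 1 ∧ cr v (z - a) / cr v w ∈ Ioo (0 : ℝ) 1 := by
  rw [← box_zero, mem_box h, sub_zero]

theorem par_adm {a v w : ℂ} (h : cr v w ≠ 0) : Adm (par a v w) := by
  refine ⟨⟨_, 1 / 2, by norm_num, 1 / 2, by norm_num, rfl⟩, ?_, ?_, ?_⟩
  · refine (isBounded_closedBall (x := (0 : ℂ)) (r := ‖a‖ + ‖v‖ + ‖w‖)).subset ?_
    rintro z ⟨s, hs, t, ht, rfl⟩
    rw [mem_closedBall_zero_iff]
    have h1 : ‖s • v‖ ≤ ‖v‖ := by
      rw [norm_smul, Real.norm_of_nonneg hs.1.le]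
      exact mul_le_of_le_one_left (norm_nonneg _) hs.2.le
    have h2 : ‖t • w‖ ≤ ‖w‖ := by
      rw [norm_smul, Real.norm_of_nonneg ht.1.le]
      exact mul_le_of_le_one_left (norm_nonneg _) ht.2.le
    have h3 := norm_add₃_le (a := a) (b := s • v) (c := t • w)
    linarith
  · have e : par a v w = (fun z => cr (z - a) w / cr v w) ⁻¹' Ioo 0 1 ∩
        (fun z => cr v (z - a) / cr v w) ⁻¹' Ioo 0 1 := by
      ext z; exact mem_par h
    rw [e]
    exact (isOpen_Ioo.preimage (by unfold cr; fun_prop)).inter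
      (isOpen_Ioo.preimage (by unfold cr; fun_prop))
  · rintro _ ⟨s, hs, t, ht, rfl⟩ _ ⟨s', hs', t', ht', rfl⟩ x y hx hy hxy
    refine ⟨x • s + y • s', convex_Ioo 0 1 hs hs' hx hy hxy, x • t + y • t',
      convex_Ioo 0 1 ht ht' hx hy hxy, ?_⟩
    have hy' : y = 1 - x := by linarith
    subst hy'
    simp only [smul_eq_mul]
    module

theorem vol_rect (α β : ℝ) :
    volume {z : ℂ | z.re ∈ Ioo α (1 - α) ∧ z.im ∈ Ioo β (1 - β)} =
      ENNReal.ofReal (1 - 2 * α) * ENNReal.ofReal (1 - 2 * β) := by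
  have e : {z : ℂ | z.re ∈ Ioo α (1 - α) ∧ z.im ∈ Ioo β (1 - β)} =
      Complex.measurableEquivRealProd ⁻¹' (Ioo α (1 - α) ×ˢ Ioo β (1 - β)) := by
    ext z; simp
  rw [e, Complex.volume_preserving_equiv_real_prod.measure_preimage
    (measurableSet_Ioo.prod measurableSet_Ioo).nullMeasurableSet, Measure.volume_eq_prod,
    Measure.prod_prod, Real.volume_Ioo, Real.volume_Ioo]
  congr 2 <;> ring

/-- The linear map sending `1, I` to `v, w`. -/
noncomputable def lm (v w : ℂ) : ℂ →ₗ[ℝ] ℂ := Complex.reLm.smulRight v + Complex.imLm.smulRight w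

theorem lm_apply (v w z : ℂ) : lm v w z = z.re • v + z.im • w := by simp [lm]

theorem lm_det (v w : ℂ) : LinearMap.det (lm v w) = cr v w := by
  rw [← LinearMap.det_toMatrix Complex.basisOneI, Matrix.det_fin_two]
  simp [LinearMap.toMatrix_apply, lm_apply, cr]
  ring

theorem vol_box (a v w : ℂ) (α β : ℝ) :
    volume (box a v w α β) =
      ENNReal.ofReal |cr v w| * (ENNReal.ofReal (1 - 2 * α) * ENNReal.ofReal (1 - 2 * β)) := by
  have e : box a v w α β = (fun z => a + z) ''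
      (lm v w '' {z : ℂ | z.re ∈ Ioo α (1 - α) ∧ z.im ∈ Ioo β (1 - β)}) := by
    ext z
    constructor
    · rintro ⟨s, hs, t, ht, rfl⟩
      exact ⟨_, ⟨⟨s, t⟩, ⟨hs, ht⟩, rfl⟩, by rw [lm_apply]; exact (add_assoc _ _ _).symm⟩
    · rintro ⟨_, ⟨y, hy, rfl⟩, rfl⟩
      exact ⟨_, hy.1, _, hy.2, by rw [lm_apply]; exact (add_assoc _ _ _).symm⟩
  rw [e, image_add_left, measure_preimage_add, Measure.addHaar_image_linearMap, lm_det, vol_rect]

theorem abs_cr_le (x y : ℂ) : |cr x y| ≤ ‖x‖ * ‖y‖ := by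
  refine le_of_sq_le_sq ?_ (by positivity)
  rw [sq_abs, mul_pow, norm_sq_eq, norm_sq_eq, cr]
  nlinarith [sq_nonneg (x.re * y.re + x.im * y.im)]

theorem near {s s' κ r : ℝ} (h : |s' - s| ≤ κ * r) (h1 : κ * r < s) (h2 : κ * r < 1 - s) :
    s' ∈ Ioo (0 : ℝ) 1 := by
  have := abs_le.1 h
  constructor <;> linarith [this.1, this.2]

theorem box_subset {a v w : ℂ} (h : cr v w ≠ 0) (ρ : ℝ) :
    box a v w (‖w‖ / |cr v w| * ρ) (‖v‖ / |cr v w| * ρ) ⊆ In (par a v w) ρ := by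
  intro z hz
  obtain ⟨⟨h1, h2⟩, h3, h4⟩ := (mem_box h).1 hz
  have o : ∀ κ c : ℝ, IsOpen {r : ℝ | κ * r < c} := fun κ c =>
    isOpen_lt (by fun_prop) continuous_const
  have ev : ∀ᶠ r in nhds ρ, (‖w‖ / |cr v w| * r < cr (z - a) w / cr v w ∧
      ‖w‖ / |cr v w| * r < 1 - cr (z - a) w / cr v w) ∧
      (‖v‖ / |cr v w| * r < cr v (z - a) / cr v w ∧
      ‖v‖ / |cr v w| * r < 1 - cr v (z - a) / cr v w) :=
    (Filter.Eventually.and ((o _ _).mem_nhds h1) ((o _ _).mem_nhds (lt_sub_comm.1 h2))).and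
      (Filter.Eventually.and ((o _ _).mem_nhds h3) ((o _ _).mem_nhds (lt_sub_comm.1 h4)))
  obtain ⟨r, ⟨⟨g1, g2⟩, g3, g4⟩, hr⟩ :=
    ((ev.filter_mono nhdsWithin_le_nhds).and (self_mem_nhdsWithin (s := Ioi ρ))).exists
  have hΔ : 0 < |cr v w| := abs_pos.2 h
  refine lt_of_lt_of_le hr (le_dep (par_adm h).2.1 fun y hy => (mem_par h).2 ⟨?_, ?_⟩)
  · refine near ?_ g1 g2
    have e : cr (y - a) w / cr v w - cr (z - a) w / cr v w = cr (y - z) w / cr v w := by
      field_simp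
      simp only [cr, Complex.sub_re, Complex.sub_im]
      ring
    rw [e, abs_div, div_mul_eq_mul_div]
    refine div_le_div_of_nonneg_right ((abs_cr_le _ _).trans ?_) hΔ.le
    rw [mul_comm]
    exact mul_le_mul_of_nonneg_left (mem_ball_iff_norm.1 hy).le (norm_nonneg _)
  · refine near ?_ g3 g4
    have e : cr v (y - a) / cr v w - cr v (z - a) / cr v w = cr v (y - z) / cr v w := by
      field_simp
      simp only [cr, Complex.sub_re, Complex.sub_im]
      ring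
    rw [e, abs_div, div_mul_eq_mul_div]
    refine div_le_div_of_nonneg_right ((abs_cr_le _ _).trans ?_) hΔ.le
    exact mul_le_mul_of_nonneg_left (mem_ball_iff_norm.1 hy).le (norm_nonneg _)

theorem ar_ge {a v w : ℂ} (h : cr v w ≠ 0) {ρ : ℝ} (ρ0 : 0 ≤ ρ)
    (h1 : 0 ≤ 1 - 2 * (‖w‖ / |cr v w| * ρ)) (h2 : 0 ≤ 1 - 2 * (‖v‖ / |cr v w| * ρ)) :
    |cr v w| * ((1 - 2 * (‖w‖ / |cr v w| * ρ)) * (1 - 2 * (‖v‖ / |cr v w| * ρ))) ≤
      Ar (par a v w) ρ := by
  have h3 := ENNReal.toReal_mono (In_vol_lt_top (par_adm (a := a) h).2.1 ρ0).ne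
    (measure_mono (box_subset h ρ))
  rwa [vol_box, ENNReal.toReal_mul, ENNReal.toReal_mul, ENNReal.toReal_ofReal (abs_nonneg _),
    ENNReal.toReal_ofReal h1, ENNReal.toReal_ofReal h2] at h3

/-- A large inner parallel set bounds the Cheeger radius from below. -/
theorem radius_gt {Ω : Set ℂ} (h : Adm Ω) {ρ : ℝ} (hA : Real.pi * ρ ^ 2 < Ar Ω ρ) :
    ∃ r, 0 < r ∧ ρ < r ∧ chee Ω = 1 / r := by
  obtain ⟨⟨r, r0, hr⟩, h2⟩ := fK2 Ω h
  refine ⟨r, r0, ?_, h2 r r0 hr⟩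
  by_contra hn
  rw [not_lt] at hn
  have h3 : Ar Ω ρ ≤ Ar Ω r :=
    ENNReal.toReal_mono (In_vol_lt_top h.2.1 r0.le).ne (measure_mono (In_anti Ω hn))
  have h4 := mul_le_mul_of_nonneg_left (pow_le_pow_left₀ r0.le hn 2) Real.pi_pos.le
  linarith

end Pool.Agent.MP_44cb5f_an.Par
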