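import Mathlib

set_option autoImplicit false

namespace Pool.Agent.MP_44cb5f_an.Par

/-! The pointwise certificate for the rhombus field. -/

noncomputable def ph (c e : ℝ) : ℝ := c / 4 + 5 * e / 16 + c * e / 4 - c ^ 2 / 8 - e ^ 2 / 8

noncomputable def phc (c e : ℝ) : ℝ := 1 / 4 + e / 4 - c / 4

noncomputable def phe (c e : ℝ) : ℝ := 5 / 16 + c / 4 - e / 4

/-- One component of the field, as a polynomial in two tangents and two squared cosines. -/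
noncomputable def zf (t X Y c e : ℝ) : ℝ := X * (1 + t ^ 2 * ph c e) + t * Y * (c / 2 - e)

/-- Its derivative when the two angles move with speeds `α`, `β`. -/
noncomputable def dz (t X Y c e α β : ℝ) : ℝ :=
  α * (1 + X ^ 2) * (1 + t ^ 2 * ph c e)
    + X * (t ^ 2 * (phc c e * (-2 * X * c * α) + phe c e * (-2 * Y * e * β)))
    + t * (β * (1 + Y ^ 2)) * (c / 2 - e) + t * Y * ((-2 * X * c * α) / 2 - (-2 * Y * e * β))

noncomputable def h2 (c e : ℝ) : ℝ :=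
  e * ph c e * (2 * c - 1) - 2 * c * e * (1 - c) * phc c e + c * (c / 2 - e) + 2 * c * e * (1 - e)
    - c * (1 - e) * (c / 2 - e) ^ 2

noncomputable def ev (c e : ℝ) : ℝ := h2 c e + h2 e c - c * e / 8

noncomputable def e4 (c e : ℝ) : ℝ := e * (1 - c) * ph c e ^ 2 + c * (1 - e) * ph e c ^ 2

noncomputable def od (c e : ℝ) : ℝ :=
  -2 * (e * phe c e + (c / 2 - e) * ph c e + c * phe e c + (e / 2 - c) * ph e c)

noncomputable def ux (t c e : ℝ) : ℝ :=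
  (1 + t ^ 2 * ph c e) - 2 * c * t ^ 2 * phc c e - (1 + t ^ 2 * ph c e) ^ 2
    + t ^ 2 * (e / 2 - c) + 2 * t ^ 2 * c - t ^ 2 * (e / 2 - c) ^ 2

theorem pplus {c e : ℝ} (c0 : 0 ≤ c) (c1 : c ≤ 1) (e0 : 0 ≤ e) (e1 : e ≤ 1) :
    0 ≤ ev c e - e4 c e / 4 + od c e * ((c + e - 2 * c * e) / 4) := by
  obtain ⟨c', hc⟩ : ∃ c', c' = 1 - c := ⟨_, rfl⟩
  obtain ⟨e', he⟩ : ∃ e', e' = 1 - e := ⟨_, rfl⟩
  have h1 : 0 ≤ c' := by linarith
  have h2' : 0 ≤ e' := by linarith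
  have : ev c e - e4 c e / 4 + od c e * ((c + e - 2 * c * e) / 4) = (
      c ^ 0 * c' ^ 5 * (32 * e ^ 2 * e' ^ 3 + 167 * e ^ 3 * e' ^ 2 + 226 * e ^ 4 * e' ^ 1 + 87 * e ^ 5 * e' ^ 0)
      + c ^ 1 * c' ^ 4 * (64 * e ^ 1 * e' ^ 4 + 232 * e ^ 2 * e' ^ 3 + 508 * e ^ 3 * e' ^ 2 + 556 * e ^ 4 * e' ^ 1 + 204 * e ^ 5 * e' ^ 0)
      + c ^ 2 * c' ^ 3 * (32 * e ^ 0 * e' ^ 5 + 232 * e ^ 1 * e' ^ 4 + 632 * e ^ 2 * e' ^ 3 + 862 * e ^ 3 * e' ^ 2 + 604 * e ^ 4 * e' ^ 1 + 166 * e ^ 5 * e' ^ 0)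
      + c ^ 3 * c' ^ 2 * (167 * e ^ 0 * e' ^ 5 + 508 * e ^ 1 * e' ^ 4 + 862 * e ^ 2 * e' ^ 3 + 904 * e ^ 3 * e' ^ 2 + 443 * e ^ 4 * e' ^ 1 + 68 * e ^ 5 * e' ^ 0)
      + c ^ 4 * c' ^ 1 * (226 * e ^ 0 * e' ^ 5 + 556 * e ^ 1 * e' ^ 4 + 604 * e ^ 2 * e' ^ 3 + 443 * e ^ 3 * e' ^ 2 + 172 * e ^ 4 * e' ^ 1 + 15 * e ^ 5 * e' ^ 0)
      + c ^ 5 * c' ^ 0 * (87 * e ^ 0 * e' ^ 5 + 204 * e ^ 1 * e' ^ 4 + 166 * e ^ 2 * e' ^ 3 + 68 * e ^ 3 * e' ^ 2 + 15 * e ^ 4 * e' ^ 1)) / 1024 := by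
    rw [hc, he]; unfold ev e4 od h2 ph phc phe; ring
  rw [this]; positivity

theorem pminus {c e : ℝ} (c0 : 0 ≤ c) (c1 : c ≤ 1) (e0 : 0 ≤ e) (e1 : e ≤ 1) :
    0 ≤ ev c e - e4 c e / 4 - od c e * ((c + e - 2 * c * e) / 4) := by
  obtain ⟨c', hc⟩ : ∃ c', c' = 1 - c := ⟨_, rfl⟩
  obtain ⟨e', he⟩ : ∃ e', e' = 1 - e := ⟨_, rfl⟩
  have h1 : 0 ≤ c' := by linarith
  have h2' : 0 ≤ e' := by linarith
  have : ev c e - e4 c e / 4 - od c e * ((c + e - 2 * c * e) / 4) = (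
      c ^ 0 * c' ^ 5 * (352 * e ^ 2 * e' ^ 3 + 679 * e ^ 3 * e' ^ 2 + 354 * e ^ 4 * e' ^ 1 + 23 * e ^ 5 * e' ^ 0)
      + c ^ 1 * c' ^ 4 * (704 * e ^ 1 * e' ^ 4 + 3624 * e ^ 2 * e' ^ 3 + 5500 * e ^ 3 * e' ^ 2 + 3116 * e ^ 4 * e' ^ 1 + 524 * e ^ 5 * e' ^ 0)
      + c ^ 2 * c' ^ 3 * (352 * e ^ 0 * e' ^ 5 + 3624 * e ^ 1 * e' ^ 4 + 10360 * e ^ 2 * e' ^ 3 + 12126 * e ^ 3 * e' ^ 2 + 6044 * e ^ 4 * e' ^ 1 + 998 * e ^ 5 * e' ^ 0)
      + c ^ 3 * c' ^ 2 * (679 * e ^ 0 * e' ^ 5 + 5500 * e ^ 1 * e' ^ 4 + 12126 * e ^ 2 * e' ^ 3 + 11144 * e ^ 3 * e' ^ 2 + 4411 * e ^ 4 * e' ^ 1 + 580 * e ^ 5 * e' ^ 0)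
      + c ^ 4 * c' ^ 1 * (354 * e ^ 0 * e' ^ 5 + 3116 * e ^ 1 * e' ^ 4 + 6044 * e ^ 2 * e' ^ 3 + 4411 * e ^ 3 * e' ^ 2 + 1196 * e ^ 4 * e' ^ 1 + 79 * e ^ 5 * e' ^ 0)
      + c ^ 5 * c' ^ 0 * (23 * e ^ 0 * e' ^ 5 + 524 * e ^ 1 * e' ^ 4 + 998 * e ^ 2 * e' ^ 3 + 580 * e ^ 3 * e' ^ 2 + 79 * e ^ 4 * e' ^ 1)) / 1024 := by
    rw [hc, he]; unfold ev e4 od h2 ph phc phe; ring
  rw [this]; positivity

theorem ident {t X Y c e : ℝ} (hc : c * (1 + X ^ 2) = 1) (he : e * (1 + Y ^ 2) = 1) :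
    c * e * (dz t X Y c e 1 t - zf t X Y c e ^ 2 + dz t Y X e c 1 t - zf t Y X e c ^ 2
      - (2 + t ^ 2 / 8)) =
      t ^ 2 * (ev c e - t ^ 2 * e4 c e + od c e * (t * (X * Y * c * e))) := by
  have h : c * e * (dz t X Y c e 1 t - zf t X Y c e ^ 2 + dz t Y X e c 1 t - zf t Y X e c ^ 2
      - (2 + t ^ 2 / 8)) -
      t ^ 2 * (ev c e - t ^ 2 * e4 c e + od c e * (t * (X * Y * c * e))) =
      e * ux t c e * (c * (1 + X ^ 2) - 1) + c * ux t e c * (e * (1 + Y ^ 2) - 1) := by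
    unfold dz zf ev e4 od h2 ux ph phc phe; ring
  rw [hc, he] at h
  linarith

/-- The certificate. -/
theorem cert {t X Y c e : ℝ} (ht : |t| ≤ 1 / 2) (hc : c * (1 + X ^ 2) = 1)
    (he : e * (1 + Y ^ 2) = 1) :
    2 + t ^ 2 / 8 ≤
      dz t X Y c e 1 t - zf t X Y c e ^ 2 + dz t Y X e c 1 t - zf t Y X e c ^ 2 := by
  have c0 : 0 < c := by
    by_contra h
    nlinarith [sq_nonneg X, not_lt.1 h]
  have e0 : 0 < e := by
    by_contra h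
    nlinarith [sq_nonneg Y, not_lt.1 h]
  have c1 : c ≤ 1 := by nlinarith [sq_nonneg X]
  have e1 : e ≤ 1 := by nlinarith [sq_nonneg Y]
  have hw : 0 ≤ (c + e - 2 * c * e) / 2 := by nlinarith
  have hm : |X * Y * c * e| ≤ (c + e - 2 * c * e) / 2 := by
    refine abs_le_of_sq_le_sq' ?_ hw |> fun h => abs_le.2 h
    have a1 : c * X ^ 2 = 1 - c := by linarith
    have a2 : e * Y ^ 2 = 1 - e := by linarith
    have a3 : (X * Y * c * e) ^ 2 = c * e * (c * X ^ 2) * (e * Y ^ 2) := by ring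
    rw [a3, a1, a2]
    nlinarith [sq_nonneg (c - e)]
  have hr : |t * (X * Y * c * e)| ≤ (c + e - 2 * c * e) / 4 := by
    rw [abs_mul]
    have := mul_le_mul ht hm (abs_nonneg _) (by norm_num)
    linarith
  have t2 : t ^ 2 ≤ 1 / 4 := by
    have := pow_le_pow_left₀ (abs_nonneg t) ht 2
    rw [sq_abs] at this
    linarith
  have h4 : 0 ≤ e4 c e := by
    have : 0 ≤ 1 - c := by linarith
    have : 0 ≤ 1 - e := by linarith
    unfold e4; positivity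
  have h5 : t ^ 2 * e4 c e ≤ e4 c e / 4 := by nlinarith
  have h6 : 0 ≤ ev c e - t ^ 2 * e4 c e + od c e * (t * (X * Y * c * e)) := by
    have hr' := abs_le.1 hr
    rcases le_total 0 (od c e) with h | h
    · have := pminus c0.le c1 e0.le e1
      nlinarith [mul_le_mul_of_nonneg_left hr'.1 h]
    · have := pplus c0.le c1 e0.le e1
      nlinarith [mul_le_mul_of_nonpos_left hr'.2 h]
  have h7 := ident (t := t) hc he
  have h8 := mul_nonneg (sq_nonneg t) h6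
  rw [← h7] at h8
  have := nonneg_of_mul_nonneg_right h8 (mul_pos c0 e0) |> id
  linarith

/-- The plain tangent field. -/
theorem cert0 (t X Y c e : ℝ) :
    2 ≤ dz 0 X Y c e 1 t - zf 0 X Y c e ^ 2 + dz 0 Y X e c 1 t - zf 0 Y X e c ^ 2 := by
  unfold dz zf
  apply le_of_eq
  ring

theorem dz_lin (t X Y c e α β : ℝ) :
    dz t X Y c e α β = α * dz t X Y c e 1 0 + β * dz t X Y c e 0 1 := by
  unfold dz; ring

theorem zf_deriv (t : ℝ) {X Y c e : ℝ → ℝ} {α β s : ℝ}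
    (hX : HasDerivAt X (α * (1 + X s ^ 2)) s) (hY : HasDerivAt Y (β * (1 + Y s ^ 2)) s)
    (hc : HasDerivAt c (-2 * X s * c s * α) s) (he : HasDerivAt e (-2 * Y s * e s * β) s) :
    HasDerivAt (fun s => zf t (X s) (Y s) (c s) (e s)) (dz t (X s) (Y s) (c s) (e s) α β) s := by
  have hp : HasDerivAt (fun s => ph (c s) (e s))
      (phc (c s) (e s) * (-2 * X s * c s * α) + phe (c s) (e s) * (-2 * Y s * e s * β)) s := by
    have := ((((hc.div_const 4).add ((he.const_mul 5).div_const 16)).add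
      ((hc.mul he).div_const 4)).sub ((hc.pow 2).div_const 8)).sub ((he.pow 2).div_const 8)
    refine HasDerivAt.congr_deriv this ?_
    unfold phc phe
    norm_num
    ring
  have := (hX.mul ((hp.const_mul (t ^ 2)).const_add 1)).add
    ((hY.const_mul t).mul ((hc.div_const 2).sub he))
  refine HasDerivAt.congr_deriv this ?_
  unfold dz
  simp only [Pi.sub_apply]
  ring

theorem zf_smooth (t : ℝ) {X Y c e : ℂ → ℝ} {z : ℂ} (hX : ContDiffAt ℝ 1 X z)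
    (hY : ContDiffAt ℝ 1 Y z) (hc : ContDiffAt ℝ 1 c z) (he : ContDiffAt ℝ 1 e z) :
    ContDiffAt ℝ 1 (fun z => zf t (X z) (Y z) (c z) (e z)) z := by
  unfold zf ph
  fun_prop

end Pool.Agent.MP_44cb5f_an.Par
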