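import Mathlib
import Pool.Agent.MP_44cb5f_an.Final
import Pool.Agent.MP_44cb5f_an.Par.Poly

set_option autoImplicit false
open MeasureTheory Set Metric

namespace Pool.Agent.MP_44cb5f_an.Par

/-! Lower bound of the first eigenvalue inside the intersection of two strips. -/

noncomputable def tn (n : ℂ) (m : ℝ) (z : ℂ) : ℝ := Real.tan (dot z n - m)

noncomputable def cs (n : ℂ) (m : ℝ) (z : ℂ) : ℝ := Real.cos (dot z n - m) ^ 2

theorem lin_smooth (n : ℂ) (m : ℝ) : ContDiff ℝ 1 (fun z : ℂ => dot z n - m) := by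
  simpa using (Hardy.dot_contDiff 0 n).sub (contDiff_const (c := m))

theorem cos_ne {n z : ℂ} {m : ℝ} (h : |dot z n - m| < Real.pi / 2) :
    Real.cos (dot z n - m) ≠ 0 :=
  (Real.cos_pos_of_mem_Ioo (abs_lt.1 h)).ne'

theorem tn_smooth {n z : ℂ} {m : ℝ} (h : |dot z n - m| < Real.pi / 2) :
    ContDiffAt ℝ 1 (tn n m) z :=
  ContDiffAt.comp (g := Real.tan) (f := fun z : ℂ => dot z n - m) z
    (Real.contDiffAt_tan.2 (cos_ne h)) (lin_smooth n m).contDiffAt

theorem cs_smooth (n z : ℂ) (m : ℝ) : ContDiffAt ℝ 1 (cs n m) z :=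
  ((Real.contDiff_cos.comp (lin_smooth n m)).pow 2).contDiffAt

theorem cs_tn {n z : ℂ} {m : ℝ} (h : |dot z n - m| < Real.pi / 2) :
    cs n m z * (1 + tn n m z ^ 2) = 1 := by
  have h0 := cos_ne h
  unfold cs tn
  rw [Real.tan_eq_sin_div_cos]
  have h1 := Real.sin_sq_add_cos_sq (dot z n - m)
  field_simp
  linarith

theorem lin_deriv (n z v : ℂ) (m : ℝ) :
    HasDerivAt (fun s : ℝ => dot (z + s • v) n - m) (dot v n) 0 := by
  have e : (fun s : ℝ => dot (z + s • v) n - m) = fun s => s * dot v n + (dot z n - m) := by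
    funext s
    simp [dot]
    ring
  rw [e]
  simpa using ((hasDerivAt_id (0 : ℝ)).mul_const (dot v n)).add_const (dot z n - m)

theorem tn_deriv {n z : ℂ} {m : ℝ} (h : |dot z n - m| < Real.pi / 2) (v : ℂ) :
    HasDerivAt (fun s : ℝ => tn n m (z + s • v))
      (dot v n * (1 + tn n m (z + (0 : ℝ) • v) ^ 2)) 0 := by
  have h2 : HasDerivAt Real.tan (1 / Real.cos (dot z n - m) ^ 2) (dot (z + (0 : ℝ) • v) n - m) := by
    simpa using Real.hasDerivAt_tan (cos_ne h)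
  have h3 := h2.comp (0 : ℝ) (lin_deriv n z v m)
  refine HasDerivAt.congr_deriv h3 ?_
  have h4 := cs_tn h
  have h0 := cos_ne h
  rw [zero_smul, add_zero]
  unfold cs at h4
  field_simp
  linear_combination (-dot v n) * h4

theorem cs_deriv {n z : ℂ} {m : ℝ} (h : |dot z n - m| < Real.pi / 2) (v : ℂ) :
    HasDerivAt (fun s : ℝ => cs n m (z + s • v))
      (-2 * tn n m (z + (0 : ℝ) • v) * cs n m (z + (0 : ℝ) • v) * dot v n) 0 := by
  have h3 := (lin_deriv n z v m).cos.pow 2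
  refine HasDerivAt.congr_deriv h3 ?_
  have h0 := cos_ne h
  simp only [zero_smul, add_zero]
  unfold cs tn
  rw [Real.tan_eq_sin_div_cos]
  field_simp
  ring

/-- The eigenvalue bound from a pointwise certificate. -/
theorem lam_ge {Ω : Set ℂ} (ho : IsOpen Ω) (hne : Ω.Nonempty) {n1 n2 k1 k2 : ℂ}
    {m1 m2 a b t τ G : ℝ} (hb : 0 < b) (hab : b ≤ a) (hG : 0 ≤ G)
    (s1 : ∀ z ∈ Ω, |dot z n1 - m1| < Real.pi / 2) (s2 : ∀ z ∈ Ω, |dot z n2 - m2| < Real.pi / 2)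
    (d11 : dot k1 n1 = 1) (d12 : dot k1 n2 = t) (d21 : dot k2 n1 = t) (d22 : dot k2 n2 = 1)
    (e1 : a * dot k1 k1 = 1) (e2 : b * dot k2 k2 = 1) (e3 : dot k1 k2 = 0)
    (hc : ∀ X Y c e : ℝ, c * (1 + X ^ 2) = 1 → e * (1 + Y ^ 2) = 1 →
      G ≤ dz τ X Y c e 1 t - zf τ X Y c e ^ 2 + dz τ Y X e c 1 t - zf τ Y X e c ^ 2) :
    b * G + (a - b) ≤ lam1 Ω := by
  set W1 : ℂ → ℝ := fun z =>
    b * zf τ (tn n1 m1 z) (tn n2 m2 z) (cs n1 m1 z) (cs n2 m2 z) + (a - b) * tn n1 m1 z with hW1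
  set W2 : ℂ → ℝ := fun z =>
    b * zf τ (tn n2 m2 z) (tn n1 m1 z) (cs n2 m2 z) (cs n1 m1 z) with hW2
  have c1 : ∀ z ∈ Ω, ContDiffAt ℝ 1 W1 z := fun z hz =>
    (contDiffAt_const.mul (zf_smooth τ (tn_smooth (s1 z hz)) (tn_smooth (s2 z hz))
      (cs_smooth _ _ _) (cs_smooth _ _ _))).add (contDiffAt_const.mul (tn_smooth (s1 z hz)))
  have c2 : ∀ z ∈ Ω, ContDiffAt ℝ 1 W2 z := fun z hz =>
    contDiffAt_const.mul (zf_smooth τ (tn_smooth (s2 z hz)) (tn_smooth (s1 z hz))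
      (cs_smooth _ _ _) (cs_smooth _ _ _))
  have cF : ∀ x y : ℝ, ∀ z ∈ Ω, ContDiffAt ℝ 1 (fun z => W1 z * x + W2 z * y) z := fun x y z hz =>
    ((c1 z hz).mul contDiffAt_const).add ((c2 z hz).mul contDiffAt_const)
  have dF : ∀ x y : ℝ, ∀ z ∈ Ω, ∀ v : ℂ, fderiv ℝ (fun z => W1 z * x + W2 z * y) z v =
      (b * dz τ (tn n1 m1 z) (tn n2 m2 z) (cs n1 m1 z) (cs n2 m2 z) (dot v n1) (dot v n2)
        + (a - b) * (dot v n1 * (1 + tn n1 m1 z ^ 2))) * x +
      (b * dz τ (tn n2 m2 z) (tn n1 m1 z) (cs n2 m2 z) (cs n1 m1 z) (dot v n2) (dot v n1)) * y := by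
    intro x y z hz v
    refine Hardy.fderiv_of_line ((cF x y z hz).differentiableAt one_ne_zero) ?_
    have X1 := tn_deriv (s1 z hz) v
    have X2 := tn_deriv (s2 z hz) v
    have C1 := cs_deriv (s1 z hz) v
    have C2 := cs_deriv (s2 z hz) v
    have z1 := zf_deriv τ X1 X2 C1 C2
    have z2 := zf_deriv τ X2 X1 C2 C1
    have := (((z1.const_mul b).add (X1.const_mul (a - b))).mul_const x).add
      ((z2.const_mul b).mul_const y)
    refine HasDerivAt.congr_deriv this ?_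
    simp only [zero_smul, add_zero]
  have ha : 0 < a := hb.trans_le hab
  have hΛ : 0 ≤ b * G + (a - b) := add_nonneg (mul_nonneg hb.le hG) (sub_nonneg.2 hab)
  have main : ∀ u, SF Ω u → (b * G + (a - b)) * Ma u ≤ En u := by
    intro u hu
    have key := Hardy.field sDiv ho (w := fun _ => b * G + (a - b)) hu.contDiff_one hu.2.1 hu.2.2
      (F1 := fun z => W1 z * k1.re + W2 z * k2.re) (F2 := fun z => W1 z * k1.im + W2 z * k2.im)
      (fun z hz => (cF _ _ z hz).contDiffWithinAt) (fun z hz => (cF _ _ z hz).contDiffWithinAt)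
      (fun _ => hΛ) (fun z hz => ?_)
    · rw [integral_mul_const] at key
      rw [mul_comm]; exact key
    rw [dF _ _ z hz, dF _ _ z hz]
    have hcz := hc _ _ _ _ (cs_tn (s1 z hz)) (cs_tn (s2 z hz))
    simp only [hW1, hW2]
    generalize tn n1 m1 z = X at *
    generalize tn n2 m2 z = Y at *
    generalize cs n1 m1 z = c at *
    generalize cs n2 m2 z = e at *
    rw [dz_lin τ X Y c e (dot 1 n1), dz_lin τ X Y c e (dot Complex.I n1),
      dz_lin τ Y X e c (dot 1 n2), dz_lin τ Y X e c (dot Complex.I n2)]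
    rw [dz_lin τ X Y c e 1 t, dz_lin τ Y X e c 1 t] at hcz
    generalize dz τ X Y c e 1 0 = A1 at *
    generalize dz τ X Y c e 0 1 = A2 at *
    generalize dz τ Y X e c 1 0 = B1 at *
    generalize dz τ Y X e c 0 1 = B2 at *
    generalize zf τ X Y c e = Z1 at *
    generalize zf τ Y X e c = Z2 at *
    simp only [dot, Complex.one_re, Complex.one_im, Complex.I_re, Complex.I_im, one_mul, zero_mul,
      add_zero, zero_add] at d11 d12 d21 d22 e1 e2 e3 ⊢
    have q1 : a * (((b * Z1 + (a - b) * X) * k1.re + b * Z2 * k2.re) ^ 2 +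
        ((b * Z1 + (a - b) * X) * k1.im + b * Z2 * k2.im) ^ 2) =
        (b * Z1 + (a - b) * X) ^ 2 + a * (b * Z2 ^ 2) := by
      linear_combination (b * Z1 + (a - b) * X) ^ 2 * e1 + a * b * Z2 ^ 2 * e2
        + 2 * a * (b * Z1 + (a - b) * X) * (b * Z2) * e3
    have q2 : (b * Z1 + (a - b) * X) ^ 2 ≤ a * (b * Z1 ^ 2 + (a - b) * X ^ 2) := by
      nlinarith [mul_nonneg (mul_nonneg hb.le (sub_nonneg.2 hab)) (sq_nonneg (Z1 - X))]
    have q3 : ((b * Z1 + (a - b) * X) * k1.re + b * Z2 * k2.re) ^ 2 +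
        ((b * Z1 + (a - b) * X) * k1.im + b * Z2 * k2.im) ^ 2 ≤
        b * Z1 ^ 2 + (a - b) * X ^ 2 + b * Z2 ^ 2 := by
      refine le_of_mul_le_mul_left ?_ ha
      rw [q1]
      linarith
    have q4 : (b * (n1.re * A1 + n2.re * A2) + (a - b) * (n1.re * (1 + X ^ 2))) * k1.re +
        b * (n2.re * B1 + n1.re * B2) * k2.re +
        ((b * (n1.im * A1 + n2.im * A2) + (a - b) * (n1.im * (1 + X ^ 2))) * k1.im +
        b * (n2.im * B1 + n1.im * B2) * k2.im) =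
        b * (A1 + t * A2) + (a - b) * (1 + X ^ 2) + b * (B1 + t * B2) := by
      linear_combination (b * A1 + (a - b) * (1 + X ^ 2)) * d11 + b * A2 * d12 + b * B2 * d21
        + b * B1 * d22
    rw [q4]
    have q5 := mul_le_mul_of_nonneg_left hcz hb.le
    nlinarith
  obtain ⟨u0, ⟨a1, a2, a3⟩, a4⟩ := exists_SF ho hne
  refine le_csInf ⟨_, u0, a1, a2, a3, a4, rfl⟩ ?_
  rintro q ⟨u, b1, b2, b3, b4, rfl⟩
  have hp := Hardy.Ma_pos b1.continuous b2 b4
  exact (le_div_iff₀ hp).2 (main u ⟨b1, b2, b3⟩)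

end Pool.Agent.MP_44cb5f_an.Par
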