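import Mathlib
import Pool.Agent.MP_44cb5f_an.Par.Geo

set_option autoImplicit false
open MeasureTheory Set Metric

namespace Pool.Agent.MP_44cb5f_an.Par

/-! The value of the functional on the unit square, from above. -/

theorem mem_sq {z : ℂ} :
    z ∈ par 0 1 Complex.I ↔ z.re ∈ Ioo (0 : ℝ) 1 ∧ z.im ∈ Ioo (0 : ℝ) 1 := by
  rw [mem_par (by simp [cr])]
  simp [cr]

theorem sq_adm : Adm (par 0 1 Complex.I) := par_adm (by simp [cr])

theorem chee_sq : 2 + √Real.pi ≤ chee (par 0 1 Complex.I) := by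
  have r0 : 0 < √Real.pi := Real.sqrt_pos.2 Real.pi_pos
  have hr : √Real.pi ^ 2 = Real.pi := Real.sq_sqrt Real.pi_pos.le
  have ρ0 : 0 < 1 / (2 + √Real.pi) := by positivity
  have h1 : 1 - 2 * (1 / (2 + √Real.pi)) = √Real.pi * (1 / (2 + √Real.pi)) := by
    field_simp; ring
  have := fK1 _ (1 / (2 + √Real.pi)) sq_adm ρ0 ?_
  · rwa [one_div_one_div] at this
  generalize 1 / (2 + √Real.pi) = ρ at ρ0 h1
  have hs : In (par 0 1 Complex.I) ρ ⊆ {z : ℂ | z.re ∈ Ioo ρ (1 - ρ) ∧ z.im ∈ Ioo ρ (1 - ρ)} := by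
    intro z hz
    have hz' : ρ < dep (par 0 1 Complex.I) z := hz
    have key : ∀ u : ℂ, ‖u‖ = 1 → z + ρ • u ∈ par 0 1 Complex.I := fun u hu =>
      ball_dep_subset _ z (by
        rw [mem_ball_iff_norm, add_sub_cancel_left, norm_smul, hu, Real.norm_of_nonneg ρ0.le]
        linarith)
    have a1 := (mem_sq.1 (key 1 (by simp))).1.2
    have a2 := (mem_sq.1 (key (-1) (by simp))).1.1
    have a3 := (mem_sq.1 (key Complex.I (by simp))).2.2
    have a4 := (mem_sq.1 (key (-Complex.I) (by simp))).2.1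
    simp at a1 a2 a3 a4
    exact ⟨⟨by linarith, by linarith⟩, by linarith, by linarith⟩
  have h2 := measure_mono (μ := volume) hs
  rw [vol_rect, h1, ← ENNReal.ofReal_mul (by positivity)] at h2
  refine (ENNReal.toReal_le_of_le_ofReal (by positivity) h2).trans (le_of_eq ?_)
  linear_combination ρ ^ 2 * hr

/-- Clamped cosine. -/
noncomputable def f (k x : ℝ) : ℝ :=
  Real.cos (max (-(Real.pi / 2)) (min (Real.pi / 2) (k * (x - 1 / 2))))

/-- The interval on which it is not clamped. -/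
def iv (k : ℝ) : Set ℝ := Ioc (1 / 2 - Real.pi / (2 * k)) (1 / 2 + Real.pi / (2 * k))

noncomputable def g (k : ℝ) : ℝ → ℝ := (iv k).indicator fun x => -(k * Real.sin (k * (x - 1 / 2)))

theorem kk {k : ℝ} (hk : 0 < k) : k * (Real.pi / (2 * k)) = Real.pi / 2 := by field_simp

theorem f_in {k x : ℝ} (hk : 0 < k) (h1 : 1 / 2 - Real.pi / (2 * k) ≤ x)
    (h2 : x ≤ 1 / 2 + Real.pi / (2 * k)) : f k x = Real.cos (k * (x - 1 / 2)) := by
  have := kk hk
  rw [f, min_eq_right (by nlinarith), max_eq_right (by nlinarith)]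

theorem f_left {k x : ℝ} (hk : 0 < k) (h1 : x ≤ 1 / 2 - Real.pi / (2 * k)) : f k x = 0 := by
  have := kk hk
  rw [f, max_eq_left ((min_le_right _ _).trans (by nlinarith)), Real.cos_neg, Real.cos_pi_div_two]

theorem f_right {k x : ℝ} (hk : 0 < k) (h1 : 1 / 2 + Real.pi / (2 * k) ≤ x) : f k x = 0 := by
  have := kk hk
  have := Real.pi_pos
  rw [f, min_eq_left (by nlinarith), max_eq_right (by linarith), Real.cos_pi_div_two]

theorem f_sq {k : ℝ} (hk : 0 < k) (x : ℝ) :
    f k x ^ 2 = (iv k).indicator (fun x => Real.cos (k * (x - 1 / 2)) ^ 2) x := by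
  by_cases h : x ∈ iv k
  · rw [indicator_of_mem h, f_in hk h.1.le h.2]
  · rw [indicator_of_notMem h]
    rcases not_and_or.1 h with h | h
    · rw [f_left hk (not_lt.1 h)]; norm_num
    · rw [f_right hk (not_le.1 h).le]; norm_num

theorem g_sq (k x : ℝ) :
    g k x ^ 2 = (iv k).indicator (fun x => k ^ 2 * Real.sin (k * (x - 1 / 2)) ^ 2) x := by
  by_cases h : x ∈ iv k
  · rw [g, indicator_of_mem h, indicator_of_mem h]; ring
  · rw [g, indicator_of_notMem h, indicator_of_notMem h]; norm_num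

theorem f_deriv {k x : ℝ} (hk : 0 < k) (h1 : x ≠ 1 / 2 - Real.pi / (2 * k))
    (h2 : x ≠ 1 / 2 + Real.pi / (2 * k)) : HasDerivAt (f k) (g k x) x := by
  rcases h1.lt_or_gt with h1 | h1
  · rw [g, indicator_of_notMem fun h => absurd h.1 (not_lt.2 h1.le)]
    refine (hasDerivAt_const x (0 : ℝ)).congr_of_eventuallyEq ?_
    filter_upwards [Iio_mem_nhds h1] with y hy using f_left hk (le_of_lt hy)
  rcases h2.lt_or_gt with h2 | h2
  · rw [g, indicator_of_mem (show x ∈ iv k from ⟨h1, h2.le⟩)]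
    have h3 : HasDerivAt (fun x : ℝ => Real.cos (k * (x - 1 / 2)))
        (-(k * Real.sin (k * (x - 1 / 2)))) x := by
      refine ((((hasDerivAt_id x).sub_const (1 / 2)).const_mul k).cos).congr_deriv ?_
      simp only [id]
      ring
    refine h3.congr_of_eventuallyEq ?_
    filter_upwards [Ioo_mem_nhds h1 h2] with y hy using f_in hk hy.1.le hy.2.le
  · rw [g, indicator_of_notMem fun h => absurd h.2 (not_le.2 h2)]
    refine (hasDerivAt_const x (0 : ℝ)).congr_of_eventuallyEq ?_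
    filter_upwards [Ioi_mem_nhds h2] with y hy using f_right hk (le_of_lt hy)

theorem f_int {k : ℝ} (hk : 0 < k) : Integrable fun x => f k x ^ 2 := by
  simp only [f_sq hk]
  exact (integrable_indicator_iff measurableSet_Ioc).2
    (Continuous.integrableOn_Ioc (by fun_prop))

theorem g_int (k : ℝ) : Integrable fun x => g k x ^ 2 := by
  simp only [g_sq]
  exact (integrable_indicator_iff measurableSet_Ioc).2
    (Continuous.integrableOn_Ioc (by fun_prop))

theorem int_eq {k : ℝ} (hk : 0 < k) : ∫ x, g k x ^ 2 = k ^ 2 * ∫ x, f k x ^ 2 := by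
  have hle : 1 / 2 - Real.pi / (2 * k) ≤ 1 / 2 + Real.pi / (2 * k) := by
    have : 0 < Real.pi / (2 * k) := div_pos Real.pi_pos (by linarith)
    linarith
  simp only [g_sq, f_sq hk]
  rw [iv, integral_indicator measurableSet_Ioc, integral_indicator measurableSet_Ioc,
    ← intervalIntegral.integral_of_le hle, ← intervalIntegral.integral_of_le hle,
    ← intervalIntegral.integral_const_mul, ← sub_eq_zero, ← intervalIntegral.integral_sub
      (Continuous.intervalIntegrable (by fun_prop) _ _)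
      (Continuous.intervalIntegrable (by fun_prop) _ _)]
  have hd : ∀ x ∈ uIcc (1 / 2 - Real.pi / (2 * k)) (1 / 2 + Real.pi / (2 * k)),
      HasDerivAt (fun x : ℝ => -(k * (Real.sin (k * (x - 1 / 2)) * Real.cos (k * (x - 1 / 2)))))
        (k ^ 2 * Real.sin (k * (x - 1 / 2)) ^ 2 - k ^ 2 * Real.cos (k * (x - 1 / 2)) ^ 2) x := by
    intro x _
    have h0 := ((hasDerivAt_id x).sub_const (1 / 2)).const_mul k
    refine ((h0.sin.mul h0.cos).const_mul k).neg.congr_deriv ?_
    simp only [id]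
    ring
  rw [intervalIntegral.integral_eq_sub_of_hasDerivAt hd
    (Continuous.intervalIntegrable (by fun_prop) _ _), add_sub_cancel_left, sub_sub_cancel_left,
    mul_neg, kk hk, Real.cos_neg, Real.cos_pi_div_two]
  ring

theorem f_lip {k : ℝ} (hk : 0 < k) (x y : ℝ) : |f k x - f k y| ≤ k * |x - y| := by
  refine (Real.abs_cos_sub_cos_le _ _).trans ?_
  refine (abs_max_sub_max_le_max _ _ _ _).trans (max_le (by simp; positivity) ?_)
  refine (abs_min_sub_min_le_max _ _ _ _).trans (max_le (by simp; positivity) ?_)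
  rw [show k * (x - 1 / 2) - k * (y - 1 / 2) = k * (x - y) by ring, abs_mul, abs_of_pos hk]

theorem f_abs (k x : ℝ) : |f k x| ≤ 1 := Real.abs_cos_le_one _

noncomputable def u (k : ℝ) (z : ℂ) : ℝ := f k z.re * f k z.im

theorem u_lip {k : ℝ} (hk : 0 < k) : LipschitzWith ⟨2 * k, by positivity⟩ (u k) := by
  refine LipschitzWith.of_dist_le_mul fun x y => ?_
  have e : u k x - u k y =
      (f k x.re - f k y.re) * f k x.im + f k y.re * (f k x.im - f k y.im) := by
    simp only [u]; ring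
  have h1 : |x.re - y.re| ≤ dist x y := by
    rw [dist_eq_norm, ← Complex.sub_re]; exact Complex.abs_re_le_norm _
  have h2 : |x.im - y.im| ≤ dist x y := by
    rw [dist_eq_norm, ← Complex.sub_im]; exact Complex.abs_im_le_norm _
  have h3 := mul_le_mul (f_lip hk x.re y.re) (f_abs k x.im) (abs_nonneg _) (by positivity)
  have h4 := mul_le_mul (f_abs k y.re) (f_lip hk x.im y.im) (abs_nonneg _) (by positivity)
  rw [Real.dist_eq, e]
  refine (abs_add_le _ _).trans ?_
  rw [abs_mul, abs_mul]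
  show _ ≤ 2 * k * dist x y
  nlinarith [mul_le_mul_of_nonneg_left h1 hk.le, mul_le_mul_of_nonneg_left h2 hk.le]

theorem f_supp {k x : ℝ} (hk : 0 < k) (h : f k x ≠ 0) :
    x ∈ Icc (1 / 2 - Real.pi / (2 * k)) (1 / 2 + Real.pi / (2 * k)) :=
  ⟨le_of_not_gt fun h1 => h (f_left hk h1.le), le_of_not_gt fun h1 => h (f_right hk h1.le)⟩

theorem u_tf {k : ℝ} (hk : Real.pi < k) : TF (par 0 1 Complex.I) (u k) := by
  have k0 := Real.pi_pos.trans hk
  have h0 : Real.pi / (2 * k) < 1 / 2 := by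
    rw [div_lt_iff₀ (by linarith)]; linarith
  have hs : tsupport (u k) ⊆ Icc (1 / 2 - Real.pi / (2 * k)) (1 / 2 + Real.pi / (2 * k)) ×ℂ
      Icc (1 / 2 - Real.pi / (2 * k)) (1 / 2 + Real.pi / (2 * k)) :=
    closure_minimal (fun z hz => ⟨f_supp k0 (left_ne_zero_of_mul hz),
      f_supp k0 (right_ne_zero_of_mul hz)⟩) (isClosed_Icc.reProdIm isClosed_Icc)
  refine ⟨⟨_, u_lip k0⟩, (isCompact_Icc.reProdIm isCompact_Icc).of_isClosed_subset
    (isClosed_tsupport _) hs, fun z hz => mem_sq.2 ?_⟩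
  obtain ⟨⟨h1, h2⟩, h3, h4⟩ := hs hz
  exact ⟨⟨by linarith, by linarith⟩, by linarith, by linarith⟩

theorem int_prod (F G : ℝ → ℝ) : ∫ z : ℂ, F z.re * G z.im = (∫ x, F x) * ∫ x, G x := by
  rw [← integral_prod_mul, ← Measure.volume_eq_prod,
    ← Complex.volume_preserving_equiv_real_prod.integral_comp'
      (fun p : ℝ × ℝ => F p.1 * G p.2)]
  rfl

theorem intg_prod {F G : ℝ → ℝ} (hF : Integrable F) (hG : Integrable G) :
    Integrable fun z : ℂ => F z.re * G z.im :=
  (Complex.volume_preserving_equiv_real_prod.integrable_comp_emb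
    Complex.measurableEquivRealProd.measurableEmbedding
    (g := fun p : ℝ × ℝ => F p.1 * G p.2)).2 (hF.mul_prod hG)

theorem en_eq {k : ℝ} (hk : 0 < k) : En (u k) = 2 * k ^ 2 * Ma (u k) := by
  have hae : ∀ᵐ x : ℝ, HasDerivAt (f k) (g k x) x := by
    filter_upwards [Measure.ae_ne volume (1 / 2 - Real.pi / (2 * k)),
      Measure.ae_ne volume (1 / 2 + Real.pi / (2 * k))] with x h1 h2 using f_deriv hk h1 h2
  have q := Complex.volume_preserving_equiv_real_prod.quasiMeasurePreserving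
  have h1 : ∀ᵐ z : ℂ, HasDerivAt (f k) (g k z.re) z.re :=
    (Measure.quasiMeasurePreserving_fst.comp q).ae hae
  have h2 : ∀ᵐ z : ℂ, HasDerivAt (f k) (g k z.im) z.im :=
    (Measure.quasiMeasurePreserving_snd.comp q).ae hae
  have h3 : ∀ᵐ z : ℂ, ‖fderiv ℝ (u k) z‖ ^ 2 =
      g k z.re ^ 2 * f k z.im ^ 2 + f k z.re ^ 2 * g k z.im ^ 2 := by
    filter_upwards [h1, h2] with z a1 a2
    have b1 := a1.comp_hasFDerivAt z Complex.reCLM.hasFDerivAt
    have b2 := a2.comp_hasFDerivAt z Complex.imCLM.hasFDerivAt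
    have b3 : HasFDerivAt (u k) _ z := b1.mul b2
    rw [b3.fderiv, clm_norm_sq]
    simp
    ring
  have e : Ma (u k) = (∫ x, f k x ^ 2) * ∫ x, f k x ^ 2 := by
    rw [← int_prod (fun x => f k x ^ 2) (fun x => f k x ^ 2)]
    simp only [Ma, u, mul_pow]
  rw [En, integral_congr_ae h3, integral_add (intg_prod (g_int k) (f_int hk))
    (intg_prod (f_int hk) (g_int k)), int_prod (fun x => g k x ^ 2) (fun x => f k x ^ 2),
    int_prod (fun x => f k x ^ 2) (fun x => g k x ^ 2), int_eq hk, e]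
  ring

theorem lam_sq : lam1 (par 0 1 Complex.I) ≤ 2 * Real.pi ^ 2 := by
  have h : ∀ k, Real.pi < k → lam1 (par 0 1 Complex.I) ≤ 2 * k ^ 2 := by
    intro k hk
    have k0 := Real.pi_pos.trans hk
    have h1 := sLam _ _ sq_adm.2.2.1 (u_tf hk)
    have h0 : 0 < Real.pi / (2 * k) := div_pos Real.pi_pos (by linarith)
    have h2 : 0 < Ma (u k) := by
      refine Hardy.Ma_pos (u_tf hk).continuous (u_tf hk).2.1 fun h0' => ?_
      have h3 : u k ⟨1 / 2, 1 / 2⟩ = 0 := congrFun h0' _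
      rw [u, f_in k0 (by linarith) (by linarith)] at h3
      simp at h3
    rw [en_eq k0] at h1
    exact le_of_mul_le_mul_right h1 h2
  have hc : Filter.Tendsto (fun k : ℝ => 2 * k ^ 2) (nhdsWithin Real.pi (Ioi Real.pi))
      (nhds (2 * Real.pi ^ 2)) :=
    (Continuous.tendsto (by fun_prop) _).mono_left nhdsWithin_le_nhds
  exact ge_of_tendsto hc (eventually_nhdsWithin_of_forall h)

theorem J_sq : J (par 0 1 Complex.I) ≤ 2 * Real.pi ^ 2 / (2 + √Real.pi) ^ 2 := by
  have r0 : 0 < 2 + √Real.pi := by positivity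
  exact div_le_div₀ (by positivity) lam_sq (by positivity) (pow_le_pow_left₀ r0.le chee_sq 2)

end Pool.Agent.MP_44cb5f_an.Par
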