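import Mathlib
import Pool.Agent.MP_44cb5f_an.Par.Lam
import Pool.Agent.MP_44cb5f_an.Par.Alg
import Pool.Agent.MP_44cb5f_an.Par.Square

set_option autoImplicit false
open MeasureTheory Set Metric

namespace Pool.Agent.MP_44cb5f_an.Par

/-! Assembly. -/

theorem lam_par {o v w : ℂ} (h : cr v w ≠ 0) {a b t : ℝ} (hb : 0 < b) (hab : b ≤ a)
    (e1 : a * dot (v + t • w) (v + t • w) = Real.pi ^ 2)
    (e2 : b * dot (w + t • v) (w + t • v) = Real.pi ^ 2) (e3 : dot (v + t • w) (w + t • v) = 0) :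
    ∃ γ, ((t ^ 2 ≤ 1 / 4 ∧ γ = t ^ 2 / 8) ∨ (1 / 4 ≤ t ^ 2 ∧ γ = 0)) ∧
      a + b + b * γ ≤ lam1 (par o v w) := by
  have π0 := Real.pi_pos
  have key : ∀ τ G : ℝ, 0 ≤ G → (∀ X Y c e : ℝ, c * (1 + X ^ 2) = 1 → e * (1 + Y ^ 2) = 1 →
      G ≤ dz τ X Y c e 1 t - zf τ X Y c e ^ 2 + dz τ Y X e c 1 t - zf τ Y X e c ^ 2) →
      b * G + (a - b) ≤ lam1 (par o v w) := by
    intro τ G hG hc
    have st : ∀ s : ℝ, s ∈ Ioo (0 : ℝ) 1 → |Real.pi * s - Real.pi / 2| < Real.pi / 2 := by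
      intro s hs
      rw [abs_lt]
      constructor <;> nlinarith [hs.1, hs.2]
    refine lam_ge (par_adm h).2.2.1 (par_adm h).1
      (n1 := ⟨Real.pi / cr v w * w.im, -(Real.pi / cr v w * w.re)⟩)
      (n2 := ⟨-(Real.pi / cr v w * v.im), Real.pi / cr v w * v.re⟩)
      (k1 := (1 / Real.pi) • (v + t • w)) (k2 := (1 / Real.pi) • (w + t • v))
      (m1 := Real.pi * (cr o w / cr v w) + Real.pi / 2)
      (m2 := Real.pi * (cr v o / cr v w) + Real.pi / 2) hb hab hG (fun z hz => ?_) (fun z hz => ?_)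
      ?_ ?_ ?_ ?_ ?_ ?_ ?_ hc
    · convert st _ ((mem_par h).1 hz).1 using 2
      simp only [dot]
      field_simp
      simp only [cr, Complex.sub_re, Complex.sub_im]
      ring
    · convert st _ ((mem_par h).1 hz).2 using 2
      simp only [dot]
      field_simp
      simp only [cr, Complex.sub_re, Complex.sub_im]
      ring
    all_goals
      simp only [dot, Complex.smul_re, Complex.smul_im, Complex.add_re, Complex.add_im,
        smul_eq_mul] at e1 e2 e3 ⊢
      field_simp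
    · simp only [cr]; ring
    · simp only [cr]; ring
    · simp only [cr]; ring
    · simp only [cr]; ring
    · linear_combination e1
    · linear_combination e2
    · linear_combination e3
  rcases le_total (t ^ 2) (1 / 4) with ht | ht
  · refine ⟨_, Or.inl ⟨ht, rfl⟩, ?_⟩
    have ht' : |t| ≤ 1 / 2 := abs_le_of_sq_le_sq (by linarith) (by norm_num)
    have := key t (2 + t ^ 2 / 8) (by positivity) fun X Y c e hc he => cert ht' hc he
    linarith
  · refine ⟨_, Or.inr ⟨ht, rfl⟩, ?_⟩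
    have := key 0 2 (by norm_num) fun X Y c e _ _ => cert0 t X Y c e
    linarith

theorem core {o v w : ℂ} (h : cr v w ≠ 0) {a b t : ℝ} (hb : 0 < b) (hab : b ≤ a) (t1 : t ^ 2 < 1)
    (e1 : a * dot (v + t • w) (v + t • w) = Real.pi ^ 2)
    (e2 : b * dot (w + t • v) (w + t • v) = Real.pi ^ 2) (e3 : dot (v + t • w) (w + t • v) = 0)
    (hne : ¬(a = b ∧ t = 0)) :
    2 * Real.pi ^ 2 / (2 + √Real.pi) ^ 2 < J (par o v w) := by
  obtain ⟨γ, hγ, hl⟩ := lam_par (o := o) h hb hab e1 e2 e3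
  have π0 := Real.pi_pos
  have ha := hb.trans_le hab
  have γ0 : 0 ≤ γ := by rcases hγ with h | h <;> (rw [h.2]; try positivity)
  have Λ0 : 0 < a + b + b * γ := by positivity
  have Δ0 : 0 < |cr v w| := abs_pos.2 h
  have hvw := abs_cr_le v w
  have v0 : 0 < ‖v‖ := norm_pos_iff.2 fun h0 => h (by simp [h0, cr])
  have w0 : 0 < ‖w‖ := norm_pos_iff.2 fun h0 => h (by simp [h0, cr])
  have T0 : 0 < (1 - t ^ 2) ^ 2 := pow_pos (by linarith) 2
  have kk : dot (v + t • w) (v + t • w) * dot (w + t • v) (w + t • v) =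
      (1 - t ^ 2) ^ 2 * cr v w ^ 2 + dot (v + t • w) (w + t • v) ^ 2 := by
    simp only [dot, cr, Complex.smul_re, Complex.smul_im, Complex.add_re, Complex.add_im,
      smul_eq_mul]
    ring
  have kw : (1 - t ^ 2) ^ 2 * ‖w‖ ^ 2 = dot (w + t • v) (w + t • v) +
      t ^ 2 * dot (v + t • w) (v + t • w) - 2 * t * dot (v + t • w) (w + t • v) := by
    simp only [norm_sq_eq, dot, Complex.smul_re, Complex.smul_im, Complex.add_re, Complex.add_im,
      smul_eq_mul]
    ring
  have kv : (1 - t ^ 2) ^ 2 * ‖v‖ ^ 2 = dot (v + t • w) (v + t • w) +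
      t ^ 2 * dot (w + t • v) (w + t • v) - 2 * t * dot (v + t • w) (w + t • v) := by
    simp only [norm_sq_eq, dot, Complex.smul_re, Complex.smul_im, Complex.add_re, Complex.add_im,
      smul_eq_mul]
    ring
  rw [e3] at kk kw kv
  rw [← sq_abs (cr v w)] at kk
  have hA := fun ρ => ar_ge (a := o) h (ρ := ρ)
  generalize dot (v + t • w) (v + t • w) = K1 at *
  generalize dot (w + t • v) (w + t • v) = K2 at *
  generalize |cr v w| = Δ at *
  have hp : (Real.pi * ‖w‖ / Δ) ^ 2 = a + b * t ^ 2 := by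
    rw [div_pow, div_eq_iff (by positivity)]
    refine mul_left_cancel₀ T0.ne' ?_
    linear_combination Real.pi ^ 2 * kw + (a + b * t ^ 2) * kk - K2 * e1 - t ^ 2 * K1 * e2
  have hq : (Real.pi * ‖v‖ / Δ) ^ 2 = b + a * t ^ 2 := by
    rw [div_pow, div_eq_iff (by positivity)]
    refine mul_left_cancel₀ T0.ne' ?_
    linear_combination Real.pi ^ 2 * kv + (b + a * t ^ 2) * kk - K1 * e2 - t ^ 2 * K2 * e1
  have hD : (Real.pi ^ 2 / Δ) ^ 2 = a * b * (1 - t ^ 2) ^ 2 := by
    rw [div_pow, div_eq_iff (by positivity)]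
    linear_combination a * b * kk - b * K2 * e1 - Real.pi ^ 2 * e2
  have X0 : 0 < 2 + √Real.pi := by positivity
  have x0 : 0 < (2 + √Real.pi) * √((a + b + b * γ) / 2) :=
    mul_pos X0 (Real.sqrt_pos.2 (by positivity))
  have hx : 2 * ((2 + √Real.pi) * √((a + b + b * γ) / 2)) ^ 2 =
      (2 + √Real.pi) ^ 2 * (a + b + b * γ) := by
    rw [mul_pow, Real.sq_sqrt (by positivity)]; ring
  generalize (2 + √Real.pi) * √((a + b + b * γ) / 2) = x at x0 hx
  obtain ⟨g1, g2, g3⟩ := gen_case hb hab t1 (by positivity) (by positivity) hp hq hD x0.le hγ hx hne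
  have f1 : 1 - 2 * (‖w‖ / Δ * (Real.pi / x)) = (x - 2 * (Real.pi * ‖w‖ / Δ)) / x := by
    field_simp
  have f2 : 1 - 2 * (‖v‖ / Δ * (Real.pi / x)) = (x - 2 * (Real.pi * ‖v‖ / Δ)) / x := by
    field_simp
  have hA' := hA (Real.pi / x) (by positivity)
    (by rw [f1]; exact div_nonneg (by linarith) x0.le)
    (by rw [f2]; exact div_nonneg (by linarith) x0.le)
  rw [f1, f2] at hA'
  obtain ⟨r, r0, hr, hc⟩ := radius_gt (par_adm (a := o) h) (ρ := Real.pi / x) (lt_of_lt_of_le (by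
    have e : Real.pi * (Real.pi / x) ^ 2 = Δ * (Real.pi * (Real.pi ^ 2 / Δ) / (x * x)) := by
      field_simp
    rw [e, div_mul_div_comm]
    exact mul_lt_mul_of_pos_left (div_lt_div_of_pos_right g3 (by positivity)) Δ0) hA')
  have e : 2 * Real.pi ^ 2 / (2 + √Real.pi) ^ 2 = (a + b + b * γ) * (Real.pi / x) ^ 2 := by
    rw [div_pow, ← mul_div_assoc, div_eq_div_iff (by positivity) (by positivity)]
    linear_combination Real.pi ^ 2 * hx
  rw [e, J, hc, one_div, inv_pow, div_inv_eq_mul]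
  exact (mul_lt_mul_of_pos_left (pow_lt_pow_left₀ hr (by positivity) two_ne_zero) Λ0).trans_le
    (mul_le_mul_of_nonneg_right hl (sq_nonneg r))

theorem par_comm (o v w : ℂ) : par o v w = par o w v := by
  ext z
  constructor <;> rintro ⟨s, hs, t, ht, rfl⟩ <;> exact ⟨t, ht, s, hs, add_right_comm _ _ _⟩

theorem dot_pos {v w : ℂ} (h : cr v w ≠ 0) (t : ℝ) : 0 < dot (v + t • w) (v + t • w) := by
  rw [dot_self]
  refine pow_pos (norm_pos_iff.2 fun h0 => h ?_) 2
  have h1 : cr v w = cr (v + t • w) w := by simp [cr]; ring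
  rw [h1, h0]
  simp [cr]

theorem main {o v w : ℂ} (h : cr v w ≠ 0) (hsq : ¬(‖v‖ = ‖w‖ ∧ dot v w = 0)) :
    J (par 0 1 Complex.I) < J (par o v w) := by
  refine J_sq.trans_lt ?_
  have h' : cr w v ≠ 0 := fun h0 => h (by unfold cr at h0 ⊢; linarith)
  have π2 : 0 < Real.pi ^ 2 := by positivity
  obtain ⟨t, ⟨t1, t2⟩, ht⟩ : (0 : ℝ) ∈ (fun t : ℝ => dot (v + t • w) (w + t • v)) '' Ioo (-1) 1 := by
    refine intermediate_value_Ioo (by norm_num) (Continuous.continuousOn ?_) ⟨?_, ?_⟩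
    · unfold dot; fun_prop
    · have := dot_pos h (-1)
      simp only [dot, Complex.smul_re, Complex.smul_im, Complex.add_re, Complex.add_im,
        smul_eq_mul] at this ⊢
      linarith
    · have := dot_pos h 1
      simp only [dot, Complex.smul_re, Complex.smul_im, Complex.add_re, Complex.add_im,
        smul_eq_mul] at this ⊢
      linarith
  have e3 : dot (v + t • w) (w + t • v) = 0 := ht
  have e3' : dot (w + t • v) (v + t • w) = 0 := by
    rw [← e3]; unfold dot; ring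
  have t3 : t ^ 2 < 1 := by nlinarith
  have k1 := dot_pos h t
  have k2 := dot_pos h' t
  have hne : ¬(Real.pi ^ 2 / dot (v + t • w) (v + t • w) =
      Real.pi ^ 2 / dot (w + t • v) (w + t • v) ∧ t = 0) := by
    rintro ⟨g1, rfl⟩
    rw [div_eq_div_iff k1.ne' k2.ne'] at g1
    have g2 := mul_left_cancel₀ π2.ne' g1
    simp only [zero_smul, add_zero] at g2 e3
    rw [dot_self, dot_self] at g2
    exact hsq ⟨((sq_eq_sq₀ (norm_nonneg _) (norm_nonneg _)).1 g2).symm, e3⟩
  rcases le_total (Real.pi ^ 2 / dot (w + t • v) (w + t • v))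
    (Real.pi ^ 2 / dot (v + t • w) (v + t • w)) with hab | hab
  · exact core h (div_pos π2 k2) hab t3 (div_mul_cancel₀ _ k1.ne') (div_mul_cancel₀ _ k2.ne') e3 hne
  · rw [par_comm o v w]
    exact core h' (div_pos π2 k1) hab t3 (div_mul_cancel₀ _ k2.ne') (div_mul_cancel₀ _ k1.ne') e3'
      fun g => hne ⟨g.1.symm, g.2⟩

end Pool.Agent.MP_44cb5f_an.Par
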